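import Mathlib

/-!
# MP_4cb440_nt: structure of the primitive solutions of `σ(a)/a = σ(b)/b`
-/

set_option autoImplicit false

open ArithmeticFunction

namespace Pool.Agent.Results.MP_4cb440_nt.PrimitiveStructure

/-- `a < b` positive with `σ(a)/a = σ(b)/b`. -/
def Sol (a b : ℕ) : Prop := 0 < a ∧ a < b ∧ sigma 1 a * b = sigma 1 b * a

/-- primitive solutions -/
def Prim (a b : ℕ) : Prop :=
  Sol a b ∧ ∀ d : ℕ, 1 < d → d ∣ a → d ∣ b → ¬ Sol (a / d) (b / d)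

/-- `q ^ e` is the exact power of `q` in `n` -/
def Exact (q e n : ℕ) : Prop := q ^ e ∣ n ∧ ¬ q ^ (e + 1) ∣ n

lemma sig_ne (m : ℕ) (hm : 0 < m) : sigma 1 m ≠ 0 := by
  rw [sigma_apply]
  have := Finset.single_le_sum (f := fun d => d^1) (fun _ _ => Nat.zero_le _)
    (Nat.mem_divisors_self m hm.ne')
  simp only [pow_one] at this ⊢
  omega

/-- the exponents of a primitive solution are different at every prime factor -/
lemma fact_ne (a b : ℕ) (h : Prim a b) (p : ℕ) (hp : p.Prime) (hd : p ∣ a * b) :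
    a.factorization p ≠ b.factorization p := by
  intro he
  obtain ⟨⟨ha, hab, hs⟩, hpr⟩ := h
  have hb : 0 < b := by omega
  set k := a.factorization p with hk
  have hk1 : 1 ≤ k := by
    rcases (Nat.Prime.dvd_mul hp).1 hd with h1 | h1
    · exact (hp.dvd_iff_one_le_factorization ha.ne').1 h1
    · rw [he]; exact (hp.dvd_iff_one_le_factorization hb.ne').1 h1
  have hda : p ^ k ∣ a := Nat.ordProj_dvd a p
  have hdb : p ^ k ∣ b := by rw [he]; exact Nat.ordProj_dvd b p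
  have hpk : 1 < p ^ k := Nat.one_lt_pow (by omega) hp.one_lt
  obtain ⟨a', ha'⟩ := hda
  obtain ⟨b', hb'⟩ := hdb
  have hpk0 : 0 < p ^ k := by omega
  have hna : ¬ p ∣ a' := by
    intro h1
    obtain ⟨c, hc⟩ := h1
    have : p ^ (k + 1) ∣ a := ⟨c, by rw [ha', hc]; ring⟩
    have h2 := (hp.pow_dvd_iff_le_factorization ha.ne').1 this
    omega
  have hnb : ¬ p ∣ b' := by
    intro h1
    obtain ⟨c, hc⟩ := h1
    have : p ^ (k + 1) ∣ b := ⟨c, by rw [hb', hc]; ring⟩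
    have h2 := (hp.pow_dvd_iff_le_factorization hb.ne').1 this
    omega
  apply hpr (p ^ k) hpk ⟨a', ha'⟩ ⟨b', hb'⟩
  have e1 : a / p ^ k = a' := by rw [ha']; exact Nat.mul_div_cancel_left a' hpk0
  have e2 : b / p ^ k = b' := by rw [hb']; exact Nat.mul_div_cancel_left b' hpk0
  rw [e1, e2]
  have ha0 : 0 < a' := by
    rcases Nat.eq_zero_or_pos a' with h0 | h0
    · rw [h0] at ha'; omega
    · exact h0
  have hco : ∀ m : ℕ, ¬ p ∣ m → sigma 1 (p ^ k * m) = sigma 1 (p ^ k) * sigma 1 m := by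
    intro m hm
    exact isMultiplicative_sigma.map_mul_of_coprime
      (Nat.Coprime.pow_left k ((Nat.Prime.coprime_iff_not_dvd hp).2 hm))
  refine ⟨ha0, ?_, ?_⟩
  · rw [ha', hb'] at hab
    exact Nat.lt_of_mul_lt_mul_left hab
  · rw [ha', hb', hco a' hna, hco b' hnb] at hs
    have h3 : 0 < sigma 1 (p ^ k) * p ^ k :=
      Nat.mul_pos (Nat.pos_of_ne_zero (sig_ne _ hpk0)) hpk0
    apply Nat.eq_of_mul_eq_mul_left h3
    linarith

/-- a prime factor of `σ(n)` divides `σ(q^e)` for an exact prime power of `n` -/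
lemma exists_factor (n p : ℕ) (hn : 0 < n) (hp : p.Prime) (hd : p ∣ sigma 1 n) :
    ∃ q e : ℕ, q.Prime ∧ q ≠ p ∧ 1 ≤ e ∧ Exact q e n ∧ p ∣ sigma 1 (q ^ e) := by
  have hm := IsMultiplicative.multiplicative_factorization (sigma 1)
    (isMultiplicative_sigma (k := 1)) hn.ne'
  rw [hm, Finsupp.prod, hp.prime.dvd_finsetProd_iff] at hd
  obtain ⟨q, hq, hpq⟩ := hd
  have hq' : q ∈ n.primeFactors := by simpa using hq
  have hqp : q.Prime := Nat.prime_of_mem_primeFactors hq'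
  have hqn : q ∣ n := Nat.dvd_of_mem_primeFactors hq'
  refine ⟨q, n.factorization q, hqp, ?_, (hqp.dvd_iff_one_le_factorization hn.ne').1 hqn,
    ⟨Nat.ordProj_dvd n q, ?_⟩, hpq⟩
  · rintro rfl
    rw [sigma_one_apply_prime_pow hqp, Finset.sum_range_succ'] at hpq
    simp only [pow_zero] at hpq
    have h1 : q ∣ ∑ k ∈ Finset.range (n.factorization q), q ^ (k + 1) :=
      Finset.dvd_sum (fun k _ => Dvd.intro_left (q ^ k) rfl)
    have h2 : q ∣ 1 := (Nat.dvd_add_right h1).1 hpq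
    exact hqp.one_lt.ne' (Nat.dvd_one.1 h2)
  · intro h1
    have := (hqp.pow_dvd_iff_le_factorization hn.ne').1 h1
    omega

/-- every prime factor of `a b` divides `σ(a)` or `σ(b)` -/
lemma dvd_sig (a b : ℕ) (h : Prim a b) (p : ℕ) (hp : p.Prime) (hd : p ∣ a * b) :
    p ∣ sigma 1 a ∨ p ∣ sigma 1 b := by
  by_contra hcon
  push Not at hcon
  apply fact_ne a b h p hp hd
  obtain ⟨⟨ha, hab, hs⟩, -⟩ := h
  have hb : 0 < b := by omega
  have h1 : (sigma 1 a * b).factorization p = (sigma 1 b * a).factorization p := by rw [hs]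
  rw [Nat.factorization_mul (sig_ne a ha) hb.ne', Nat.factorization_mul (sig_ne b hb) ha.ne'] at h1
  simp only [Finsupp.add_apply, Nat.factorization_eq_zero_of_not_dvd hcon.1,
    Nat.factorization_eq_zero_of_not_dvd hcon.2] at h1
  omega

/-- (1) -/
lemma part1 (a b : ℕ) (h : Prim a b) (p : ℕ) (hp : p.Prime) (hd : p ∣ a * b) :
    a.factorization p ≠ b.factorization p ∧
      ∃ q e : ℕ, q.Prime ∧ q ≠ p ∧ 1 ≤ e ∧ (Exact q e a ∨ Exact q e b) ∧ p ∣ sigma 1 (q ^ e) := by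
  refine ⟨fact_ne a b h p hp hd, ?_⟩
  have ha : 0 < a := h.1.1
  have hb : 0 < b := h.1.1.trans h.1.2.1
  rcases dvd_sig a b h p hp hd with h1 | h1
  · obtain ⟨q, e, c1, c2, c3, c4, c5⟩ := exists_factor a p ha hp h1
    exact ⟨q, e, c1, c2, c3, Or.inl c4, c5⟩
  · obtain ⟨q, e, c1, c2, c3, c4, c5⟩ := exists_factor b p hb hp h1
    exact ⟨q, e, c1, c2, c3, Or.inr c4, c5⟩

lemma sig_pow_lt (q e : ℕ) (hq : q.Prime) : sigma 1 (q ^ e) < 2 * q ^ e := by
  rw [sigma_one_apply_prime_pow hq]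
  induction e with
  | zero => simp
  | succ e ih =>
    rw [Finset.sum_range_succ]
    have h2 := hq.two_le
    have h3 : 2 * q ^ e ≤ q ^ (e + 1) := by
      rw [pow_succ, mul_comm]; exact Nat.mul_le_mul_left _ h2
    omega

/-- (2) -/
lemma part2 (a b : ℕ) (h : Prim a b) (P : ℕ) (hP : P.Prime) (hP5 : 5 ≤ P) (hd : P ∣ a * b)
    (hmax : ∀ q : ℕ, q.Prime → q ∣ a * b → q ≤ P) :
    ∃ q e : ℕ, q.Prime ∧ q < P ∧ 2 ≤ e ∧ (Exact q e a ∨ Exact q e b) ∧ P ∣ sigma 1 (q ^ e) ∧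
      P < 2 * q ^ e := by
  obtain ⟨-, q, e, hq, hqP, he, hex, hdv⟩ := part1 a b h P hP hd
  have hqd : q ∣ a * b := by
    rcases hex with h1 | h1
    · exact Dvd.dvd.mul_right ((dvd_pow_self q (by omega)).trans h1.1) b
    · exact Dvd.dvd.mul_left ((dvd_pow_self q (by omega)).trans h1.1) a
  have hlt : q < P := lt_of_le_of_ne (hmax q hq hqd) hqP
  have hpos : 0 < sigma 1 (q ^ e) := Nat.pos_of_ne_zero (sig_ne _ (pow_pos hq.pos e))
  have hle := Nat.le_of_dvd hpos hdv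
  refine ⟨q, e, hq, hlt, ?_, hex, hdv, hle.trans_lt (sig_pow_lt q e hq)⟩
  by_contra hcon
  have he1 : e = 1 := by omega
  subst he1
  rw [sigma_one_apply_prime_pow hq] at hle
  simp [Finset.sum_range_succ] at hle
  have hq1 : P = q + 1 := by omega
  rcases hq.eq_two_or_odd with h2 | h2
  · omega
  · rcases hP.eq_two_or_odd with h3 | h3
    · omega
    · omega

/-- (3) -/
lemma part3 (a b u v p q : ℕ) (h : Prim a b) (hp : p.Prime) (hq : q.Prime) (hpu : ¬ p ∣ u)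
    (hqv : ¬ q ∣ v) (ha : a = u * p) (hb : b = v * q) :
    p ≠ q ∧ p ∣ sigma 1 u * v ∧ q ∣ sigma 1 v * u ∧ a ≤ u * v * sigma 1 u ∧
      b ≤ u * v * sigma 1 v := by
  have ha0 : 0 < a := h.1.1
  have hb0 : 0 < b := h.1.1.trans h.1.2.1
  have hs := h.1.2.2
  have hu : 0 < u := by
    rcases Nat.eq_zero_or_pos u with h0 | h0
    · rw [h0] at ha; omega
    · exact h0
  have hv : 0 < v := by
    rcases Nat.eq_zero_or_pos v with h0 | h0
    · rw [h0] at hb; omega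
    · exact h0
  have hf : ∀ (m r : ℕ), 0 < m → r.Prime → ¬ r ∣ m → (m * r).factorization r = 1 := by
    intro m r hm hr hrm
    rw [Nat.factorization_mul hm.ne' hr.ne_zero]
    simp [Nat.factorization_eq_zero_of_not_dvd hrm, hr.factorization_self]
  have hne : p ≠ q := by
    rintro rfl
    apply fact_ne a b h p hp (ha ▸ Dvd.intro_left _ rfl |>.mul_right b)
    rw [ha, hb, hf u p hu hp hpu, hf v p hv hp hqv]
  have e1 : sigma 1 a = sigma 1 u * (p + 1) := by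
    rw [ha, isMultiplicative_sigma.map_mul_of_coprime
      ((Nat.Prime.coprime_iff_not_dvd hp).2 hpu).symm]
    have := sigma_one_apply_prime_pow (i := 1) hp
    rw [pow_one] at this
    rw [this]; simp [Finset.sum_range_succ, add_comm]
  have e2 : sigma 1 b = sigma 1 v * (q + 1) := by
    rw [hb, isMultiplicative_sigma.map_mul_of_coprime
      ((Nat.Prime.coprime_iff_not_dvd hq).2 hqv).symm]
    have := sigma_one_apply_prime_pow (i := 1) hq
    rw [pow_one] at this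
    rw [this]; simp [Finset.sum_range_succ, add_comm]
  rw [e1, e2] at hs
  have aux : ∀ r : ℕ, r.Prime → ¬ r ∣ r + 1 := by
    intro r hr h1
    have h2 : r ∣ 1 := (Nat.dvd_add_right (dvd_refl r)).1 h1
    exact hr.one_lt.ne' (Nat.dvd_one.1 h2)
  have hpd : p ∣ sigma 1 u * v := by
    have h1 : p ∣ sigma 1 u * (p + 1) * b := by
      rw [hs, ha]; exact ⟨sigma 1 v * (q + 1) * u, by ring⟩
    rw [hb] at h1
    rcases (Nat.Prime.dvd_mul hp).1 h1 with h2 | h2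
    · rcases (Nat.Prime.dvd_mul hp).1 h2 with h3 | h3
      · exact Dvd.dvd.mul_right h3 v
      · exact absurd h3 (aux p hp)
    · rcases (Nat.Prime.dvd_mul hp).1 h2 with h3 | h3
      · exact Dvd.dvd.mul_left h3 _
      · exact absurd ((Nat.prime_dvd_prime_iff_eq hp hq).1 h3) hne
  have hqd : q ∣ sigma 1 v * u := by
    have h1 : q ∣ sigma 1 v * (q + 1) * a := by
      rw [← hs, hb]; exact ⟨sigma 1 u * (p + 1) * v, by ring⟩
    rw [ha] at h1
    rcases (Nat.Prime.dvd_mul hq).1 h1 with h2 | h2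
    · rcases (Nat.Prime.dvd_mul hq).1 h2 with h3 | h3
      · exact Dvd.dvd.mul_right h3 u
      · exact absurd h3 (aux q hq)
    · rcases (Nat.Prime.dvd_mul hq).1 h2 with h3 | h3
      · exact Dvd.dvd.mul_left h3 _
      · exact absurd ((Nat.prime_dvd_prime_iff_eq hq hp).1 h3).symm hne
  have hsu := Nat.pos_of_ne_zero (sig_ne u hu)
  have hsv := Nat.pos_of_ne_zero (sig_ne v hv)
  refine ⟨hne, hpd, hqd, ?_, ?_⟩
  · have h1 := Nat.le_of_dvd (Nat.mul_pos hsu hv) hpd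
    calc a = u * p := ha
      _ ≤ u * (sigma 1 u * v) := Nat.mul_le_mul_left u h1
      _ = u * v * sigma 1 u := by ring
  · have h1 := Nat.le_of_dvd (Nat.mul_pos hsv hu) hqd
    calc b = v * q := hb
      _ ≤ v * (sigma 1 v * u) := Nat.mul_le_mul_left v h1
      _ = u * v * sigma 1 v := by ring

/-- the second prime is determined by the cofactors and the first prime -/
lemma det (a b b' u v p q q' : ℕ) (h : Prim a b) (h' : Prim a b') (hp : p.Prime) (hq : q.Prime)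
    (hq' : q'.Prime) (hpu : ¬ p ∣ u) (hqv : ¬ q ∣ v) (hqv' : ¬ q' ∣ v) (ha : a = u * p)
    (hb : b = v * q) (hb' : b' = v * q') : b = b' := by
  have ha0 : 0 < a := h.1.1
  have hb0 : 0 < b := h.1.1.trans h.1.2.1
  have hs := h.1.2.2
  have hs' := h'.1.2.2
  have hv : 0 < v := by
    rcases Nat.eq_zero_or_pos v with h0 | h0
    · rw [h0] at hb; omega
    · exact h0
  have e2 : ∀ r : ℕ, r.Prime → ¬ r ∣ v → sigma 1 (v * r) = sigma 1 v * (r + 1) := by
    intro r hr hrv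
    rw [isMultiplicative_sigma.map_mul_of_coprime
      ((Nat.Prime.coprime_iff_not_dvd hr).2 hrv).symm]
    have := sigma_one_apply_prime_pow (i := 1) hr
    rw [pow_one] at this
    rw [this]; simp [Finset.sum_range_succ, add_comm]
  rw [hb, e2 q hq hqv] at hs
  rw [hb', e2 q' hq' hqv'] at hs'
  have hY : 0 < sigma 1 v * a := Nat.mul_pos (Nat.pos_of_ne_zero (sig_ne v hv)) ha0
  generalize sigma 1 a = A at hs hs'
  generalize sigma 1 v = V at hs hs' hY
  have hs1 : (A : ℤ) * (v * q) = V * (q + 1) * a := by exact_mod_cast hs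
  have hs2 : (A : ℤ) * (v * q') = V * (q' + 1) * a := by exact_mod_cast hs'
  have hY1 : (0 : ℤ) < V * a := by exact_mod_cast hY
  have h1 : ((A : ℤ) * v - V * a) * q = V * a := by linear_combination hs1
  have h2 : ((A : ℤ) * v - V * a) * q' = V * a := by linear_combination hs2
  have hne : (A : ℤ) * v - V * a ≠ 0 := by
    intro h0
    rw [h0, zero_mul] at h1
    exact hY1.ne h1
  have h3 : (q : ℤ) = q' := mul_left_cancel₀ hne (h1.trans h2.symm)
  have h4 : q = q' := by exact_mod_cast h3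
  rw [hb, hb', h4]

/-- (4) -/
lemma part4 (z : ℕ) (S : Finset (ℕ × ℕ))
    (hS : ∀ s ∈ S, Prim s.1 s.2 ∧ ∃ u v p q : ℕ, p.Prime ∧ q.Prime ∧ ¬ p ∣ u ∧ ¬ q ∣ v ∧
      s.1 = u * p ∧ s.2 = v * q ∧ u * v ≤ z) :
    S.card ≤ ∑ u ∈ Finset.Icc 1 z, ∑ v ∈ Finset.Icc 1 (z / u),
      (sigma 1 u * v).primeFactors.card := by
  classical
  let T : Finset (Σ _ : ℕ, Σ _ : ℕ, ℕ) := (Finset.Icc 1 z).sigma
    (fun u => (Finset.Icc 1 (z / u)).sigma (fun v => (sigma 1 u * v).primeFactors))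
  have hT : T.card = ∑ u ∈ Finset.Icc 1 z, ∑ v ∈ Finset.Icc 1 (z / u),
      (sigma 1 u * v).primeFactors.card := by
    simp [T, Finset.card_sigma]
  have hchoose : ∀ s ∈ S, ∃ t ∈ T, ∃ q : ℕ, t.2.2.Prime ∧ q.Prime ∧ ¬ t.2.2 ∣ t.1 ∧
      ¬ q ∣ t.2.1 ∧ s.1 = t.1 * t.2.2 ∧ s.2 = t.2.1 * q := by
    intro s hs
    obtain ⟨h0, u, v, p, q, hp, hq, hpu, hqv, h1, h2, h3⟩ := hS s hs
    have ha0 : 0 < s.1 := h0.1.1
    have hb0 : 0 < s.2 := h0.1.1.trans h0.1.2.1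
    have hu : 0 < u := by
      rcases Nat.eq_zero_or_pos u with h0 | h0
      · rw [h0] at h1; omega
      · exact h0
    have hv : 0 < v := by
      rcases Nat.eq_zero_or_pos v with h0 | h0
      · rw [h0] at h2; omega
      · exact h0
    obtain ⟨-, hd, -, -, -⟩ := part3 s.1 s.2 u v p q h0 hp hq hpu hqv h1 h2
    refine ⟨⟨u, v, p⟩, ?_, q, hp, hq, hpu, hqv, h1, h2⟩
    simp only [T, Finset.mem_sigma, Finset.mem_Icc]
    refine ⟨⟨hu, (Nat.le_mul_of_pos_right u hv).trans h3⟩, ⟨hv, ?_⟩, ?_⟩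
    · rw [Nat.le_div_iff_mul_le hu, mul_comm]; exact h3
    · rw [Nat.mem_primeFactors]
      exact ⟨hp, hd, (Nat.mul_pos (Nat.pos_of_ne_zero (sig_ne u hu)) hv).ne'⟩
  choose! f hfT q hpf hqf hpu hqv h1 h2 using hchoose
  rw [← hT]
  refine Finset.card_le_card_of_injOn f (fun n hn => hfT n hn) ?_
  intro s hs t ht hst
  have hs' : s ∈ S := hs
  have ht' : t ∈ S := ht
  have e1 : s.1 = t.1 := by rw [h1 s hs', h1 t ht', hst]
  have h3 := (hS t ht').1
  rw [← e1] at h3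
  have e2 : s.2 = t.2 :=
    det s.1 s.2 t.2 (f s).1 (f s).2.1 (f s).2.2 (q s) (q t) (hS s hs').1 h3 (hpf s hs')
      (hqf s hs') (hqf t ht') (hpu s hs') (hqv s hs') (hst ▸ hqv t ht') (h1 s hs') (h2 s hs')
      (hst ▸ h2 t ht')
  exact Prod.ext e1 e2

theorem result :
    (∀ a b : ℕ, Prim a b → ∀ p : ℕ, p.Prime → p ∣ a * b →
      a.factorization p ≠ b.factorization p ∧
      ∃ q e : ℕ, q.Prime ∧ q ≠ p ∧ 1 ≤ e ∧ (Exact q e a ∨ Exact q e b) ∧ p ∣ sigma 1 (q ^ e)) ∧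
    (∀ a b : ℕ, Prim a b → ∀ P : ℕ, P.Prime → 5 ≤ P → P ∣ a * b →
      (∀ q : ℕ, q.Prime → q ∣ a * b → q ≤ P) →
      ∃ q e : ℕ, q.Prime ∧ q < P ∧ 2 ≤ e ∧ (Exact q e a ∨ Exact q e b) ∧ P ∣ sigma 1 (q ^ e) ∧
        P < 2 * q ^ e) ∧
    (∀ a b u v p q : ℕ, Prim a b → p.Prime → q.Prime → ¬ p ∣ u → ¬ q ∣ v → a = u * p →
      b = v * q → p ≠ q ∧ p ∣ sigma 1 u * v ∧ q ∣ sigma 1 v * u ∧ a ≤ u * v * sigma 1 u ∧
        b ≤ u * v * sigma 1 v) ∧
    (∀ (z : ℕ) (S : Finset (ℕ × ℕ)),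
      (∀ s ∈ S, Prim s.1 s.2 ∧ ∃ u v p q : ℕ, p.Prime ∧ q.Prime ∧ ¬ p ∣ u ∧ ¬ q ∣ v ∧
        s.1 = u * p ∧ s.2 = v * q ∧ u * v ≤ z) →
      S.card ≤ ∑ u ∈ Finset.Icc 1 z, ∑ v ∈ Finset.Icc 1 (z / u),
        (sigma 1 u * v).primeFactors.card) :=
  ⟨part1, part2, part3, part4⟩

end Pool.Agent.Results.MP_4cb440_nt.PrimitiveStructure
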